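import Mathlib

open Set Filter Topology Metric

namespace Pool.Agent.MP_2550b6_an

/-- The closed symmetrised bidisc `Γ`. -/
def Gam : Set (ℂ × ℂ) := {x | ∃ z w : ℂ, ‖z‖ ≤ 1 ∧ ‖w‖ ≤ 1 ∧ x = (z + w, z * w)}

/-- The `Γ`-interpolation data `lam j ↦ z j` are solvable: some analytic map `f` from the open
unit disc to `Γ` satisfies `f (lam j) = z j` for all `j`. -/
def GammaSolvable {n : ℕ} (lam : Fin n → ℂ) (z : Fin n → ℂ × ℂ) : Prop :=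
  ∃ f : ℂ → ℂ × ℂ, DifferentiableOn ℂ f (ball 0 1) ∧ (∀ x ∈ ball (0 : ℂ) 1, f x ∈ Gam) ∧
    ∀ j, f (lam j) = z j

/-- The Nevanlinna-Pick data `lam j ↦ w j` are solvable: some analytic map `g` from the open
unit disc to the closed unit disc satisfies `g (lam j) = w j` for all `j`. -/
def NPSolvable {n : ℕ} (lam : Fin n → ℂ) (w : Fin n → ℂ) : Prop :=
  ∃ g : ℂ → ℂ, DifferentiableOn ℂ g (ball 0 1) ∧ (∀ x ∈ ball (0 : ℂ) 1, ‖g x‖ ≤ 1) ∧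
    ∀ j, g (lam j) = w j

/-- The Nevanlinna-Pick target data `(2 υ(λ_j) p_j - s_j) / (2 - υ(λ_j) s_j)`. -/
noncomputable def testData {n : ℕ} (lam : Fin n → ℂ) (z : Fin n → ℂ × ℂ) (υ : ℂ → ℂ) :
    Fin n → ℂ :=
  fun j => (2 * υ (lam j) * (z j).2 - (z j).1) / (2 - υ (lam j) * (z j).1)

/-- `υ` is on the unit disc a Blaschke product of degree `d`. -/
def IsBlaschke (d : ℕ) (υ : ℂ → ℂ) : Prop :=
  ∃ (c : ℂ) (a : Fin d → ℂ), ‖c‖ = 1 ∧ (∀ k, ‖a k‖ < 1) ∧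
    ∀ x ∈ ball (0 : ℂ) 1, υ x = c * ∏ k, (x - a k) / (1 - (starRingEnd ℂ) (a k) * x)

/-- Condition `C_ν(lam, z)`. -/
def CondC {n : ℕ} (ν : ℕ) (lam : Fin n → ℂ) (z : Fin n → ℂ × ℂ) : Prop :=
  ∀ (υ : ℂ → ℂ) (d : ℕ), d ≤ ν → IsBlaschke d υ → NPSolvable lam (testData lam z υ)

end Pool.Agent.MP_2550b6_an
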