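import Pool.Agent.MP_2550b6_an.Defs

open Set Filter Topology Metric

namespace Pool.Agent.MP_2550b6_an

/-! ### Three zeros are impossible -/

/-- A holomorphic function vanishing at `0` whose values on a circle avoid `(-∞, 0]` cannot
exist. -/
lemma no_zero_of_avoid {k : ℂ → ℂ} {ρ R : ℝ} (hρ : 0 < ρ)
    (hk : DifferentiableOn ℂ k (ball 0 R)) (hρ1 : ρ < R) (h0 : k 0 = 0)
    (hav : ∀ x : ℂ, ‖x‖ = ρ → ∀ t : ℝ, 0 ≤ t → k x ≠ -(t : ℂ)) : False := by
  have hR : 0 < R := hρ.trans hρ1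
  have hsub : closedBall (0 : ℂ) ρ ⊆ ball 0 R := closedBall_subset_ball hρ1
  have hkc : ContinuousOn k (closedBall 0 ρ) := hk.continuousOn.mono hsub
  have han : AnalyticOnNhd ℂ k (ball 0 R) := hk.analyticOnNhd isOpen_ball
  set T : Set ℝ := {t : ℝ | ∃ x ∈ closedBall (0 : ℂ) ρ, k x = -(t : ℂ)} with hT
  have hcomp : IsCompact (k '' closedBall 0 ρ) := (isCompact_closedBall 0 ρ).image_of_continuousOn hkc
  have hTclosed : IsClosed T := by
    have : T = (fun t : ℝ => -(t : ℂ)) ⁻¹' (k '' closedBall 0 ρ) := by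
      ext t; simp [hT]
    rw [this]
    exact hcomp.isClosed.preimage (by fun_prop)
  -- boundedness
  obtain ⟨M, hM⟩ := hcomp.isBounded.exists_norm_le
  -- openness inside `[0, ∞)`
  rcases han.is_constant_or_isOpen (convex_ball (0 : ℂ) R).isPreconnected with ⟨w, hw⟩ | hopen
  · have h00 : w = 0 := by rw [← hw 0 (by simpa using hR), h0]
    have hx : ((ρ : ℝ) : ℂ) ∈ ball (0 : ℂ) R := by
      simp [abs_of_pos hρ, hρ1]
    have := hav (ρ : ℂ) (by simp [abs_of_pos hρ]) 0 le_rfl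
    apply this
    rw [hw _ hx, h00]; simp
  · have hO : IsOpen (k '' ball 0 ρ) := hopen _ (ball_subset_ball hρ1.le) isOpen_ball
    -- the largest initial segment
    have hIcc : ∀ b : ℝ, 0 ≤ b → Icc 0 b ⊆ T := by
      intro b hb
      refine IsClosed.Icc_subset_of_forall_mem_nhdsWithin (s := T) (hTclosed.inter isClosed_Icc)
        ?_ ?_
      · exact ⟨0, by simpa using hρ.le, by simp [h0]⟩
      · rintro t ⟨⟨x, hx, hkx⟩, ht0, _⟩
        have hxρ : ‖x‖ ≠ ρ := fun h => hav x h t ht0 hkx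
        have hxb : x ∈ ball (0 : ℂ) ρ := by
          have : ‖x‖ ≤ ρ := by simpa using hx
          simpa using lt_of_le_of_ne this hxρ
        have hmem : -(t : ℂ) ∈ k '' ball 0 ρ := ⟨x, hxb, hkx⟩
        have hnh : (fun s : ℝ => -(s : ℂ)) ⁻¹' (k '' ball 0 ρ) ∈ 𝓝 t := by
          have hc : ContinuousAt (fun s : ℝ => -(s : ℂ)) t := by fun_prop
          exact hc (hO.mem_nhds hmem)
        refine mem_nhdsWithin_of_mem_nhds (mem_of_superset hnh ?_)
        rintro s ⟨y, hy, hky⟩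
        exact ⟨y, ball_subset_closedBall hy, hky⟩
    have hM0 : 0 ≤ |M| + 1 := by positivity
    obtain ⟨x, hx, hkx⟩ := hIcc (|M| + 1) hM0 (right_mem_Icc.2 hM0)
    have := hM (k x) ⟨x, hx, rfl⟩
    rw [hkx, norm_neg, Complex.norm_real, Real.norm_eq_abs, abs_of_nonneg hM0] at this
    linarith [le_abs_self M]

/-- A product of two complex numbers with positive real part is not a nonpositive real. -/
lemma mul_ne_neg {a b : ℂ} (ha : 0 < a.re) (hb : 0 < b.re) (t : ℝ) (ht : 0 ≤ t) :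
    a * b ≠ -(t : ℂ) := by
  intro h
  have h1 := congrArg Complex.re h
  have h2 := congrArg Complex.im h
  simp at h1 h2
  have h3 : a.im * b.re = -(a.re * b.im) := by linarith
  have h4 : a.re * b.re + t = a.im * b.im := by linarith
  have h5 : (a.im * b.im) * b.re = -(a.re * b.im ^ 2) := by
    calc (a.im * b.im) * b.re = (a.im * b.re) * b.im := by ring
      _ = _ := by rw [h3]; ring
  have h6 : 0 < a.im * b.im := by
    have := mul_pos ha hb
    linarith
  have h7 : 0 < (a.im * b.im) * b.re := mul_pos h6 hb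
  have h8 : 0 ≤ a.re * b.im ^ 2 := by positivity
  linarith

/-- The key obstruction: for `c > 1` the number `c x` is a root of the pair `f x` for at most two
points `x` of the disc. -/
lemma no_three {f : ℂ → ℂ × ℂ} (hf : DifferentiableOn ℂ f (ball 0 1))
    (hG : ∀ x ∈ ball (0 : ℂ) 1, f x ∈ Gam) {c : ℝ} (hc : 1 < c) {l1 l2 l3 : ℂ}
    (h1 : ‖l1‖ < 1) (h2 : ‖l2‖ < 1) (h3 : ‖l3‖ < 1) (h12 : l1 ≠ l2) (h13 : l1 ≠ l3) (h23 : l2 ≠ l3)
    (e1 : f l1 = ((c : ℂ) * l1, 0)) (e2 : f l2 = ((c : ℂ) * l2, 0))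
    (e3 : f l3 = ((c : ℂ) * l3, 0)) : False := by
  have hc0 : (0 : ℝ) < c := by linarith
  -- the holomorphic function with three zeros
  set g : ℂ → ℂ := fun x => ((c : ℂ) * x) ^ 2 - (c : ℂ) * x * (f x).1 + (f x).2 with hg
  have hf1 : DifferentiableOn ℂ (fun x => (f x).1) (ball 0 1) := hf.fst
  have hf2 : DifferentiableOn ℂ (fun x => (f x).2) (ball 0 1) := hf.snd
  have hgd : DifferentiableOn ℂ g (ball 0 1) := by
    refine DifferentiableOn.add (DifferentiableOn.sub ?_ (DifferentiableOn.mul ?_ hf1)) hf2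
    · fun_prop
    · fun_prop
  have g1 : g l1 = 0 := by simp only [hg, e1]; ring
  have g2 : g l2 = 0 := by simp only [hg, e2]; ring
  have g3 : g l3 = 0 := by simp only [hg, e3]; ring
  have m1 : ball (0 : ℂ) 1 ∈ 𝓝 l1 := isOpen_ball.mem_nhds (by simpa using h1)
  have m2 : ball (0 : ℂ) 1 ∈ 𝓝 l2 := isOpen_ball.mem_nhds (by simpa using h2)
  have m3 : ball (0 : ℂ) 1 ∈ 𝓝 l3 := isOpen_ball.mem_nhds (by simpa using h3)
  set u : ℂ → ℂ := dslope g l1 with hu
  have hud : DifferentiableOn ℂ u (ball 0 1) := (Complex.differentiableOn_dslope m1).2 hgd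
  have hgu : ∀ x, g x = (x - l1) * u x := fun x => by
    rw [hu, ← smul_eq_mul, sub_smul_dslope_of_zero g1]
  have u2 : u l2 = 0 := by
    have := hgu l2
    rw [g2] at this
    exact (mul_eq_zero.1 this.symm).resolve_left (sub_ne_zero.2 h12.symm)
  have u3 : u l3 = 0 := by
    have := hgu l3
    rw [g3] at this
    exact (mul_eq_zero.1 this.symm).resolve_left (sub_ne_zero.2 h13.symm)
  set v : ℂ → ℂ := dslope u l2 with hv
  have hvd : DifferentiableOn ℂ v (ball 0 1) := (Complex.differentiableOn_dslope m2).2 hud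
  have huv : ∀ x, u x = (x - l2) * v x := fun x => by
    rw [hv, ← smul_eq_mul, sub_smul_dslope_of_zero u2]
  have v3 : v l3 = 0 := by
    have := huv l3
    rw [u3] at this
    exact (mul_eq_zero.1 this.symm).resolve_left (sub_ne_zero.2 h23.symm)
  set h : ℂ → ℂ := dslope v l3 with hh
  have hhd : DifferentiableOn ℂ h (ball 0 1) := (Complex.differentiableOn_dslope m3).2 hvd
  have hvh : ∀ x, v x = (x - l3) * h x := fun x => by
    rw [hh, ← smul_eq_mul, sub_smul_dslope_of_zero v3]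
  have hgh : ∀ x, g x = (x - l1) * (x - l2) * (x - l3) * h x := fun x => by
    rw [hgu, huv, hvh]; ring
  -- a good radius
  obtain ⟨ρ, hρlow, hρ1⟩ : ∃ ρ : ℝ, max (max ‖l1‖ ‖l2‖) (max ‖l3‖ (1 / c)) < ρ ∧ ρ < 1 := by
    refine exists_between ?_
    refine max_lt (max_lt h1 h2) (max_lt h3 ?_)
    rw [div_lt_one hc0]; exact hc
  have hl1 : ‖l1‖ < ρ := lt_of_le_of_lt ((le_max_left _ _).trans (le_max_left _ _)) hρlow
  have hl2 : ‖l2‖ < ρ := lt_of_le_of_lt ((le_max_right _ _).trans (le_max_left _ _)) hρlow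
  have hl3 : ‖l3‖ < ρ := lt_of_le_of_lt ((le_max_left _ _).trans (le_max_right _ _)) hρlow
  have hcρ : 1 < c * ρ := by
    have : 1 / c < ρ := lt_of_le_of_lt ((le_max_right _ _).trans (le_max_right _ _)) hρlow
    rwa [div_lt_iff₀' hc0] at this
  have hρ0 : 0 < ρ := lt_of_le_of_lt (norm_nonneg _) hl1
  -- a slightly larger radius on which the quotient is holomorphic
  obtain ⟨R, hRρ, hR1, hRl1, hRl2, hRl3⟩ : ∃ R : ℝ, ρ < R ∧ R < 1 ∧ ‖l1‖ * R < ρ ^ 2 ∧
      ‖l2‖ * R < ρ ^ 2 ∧ ‖l3‖ * R < ρ ^ 2 := by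
    have ev1 : ∀ᶠ R in 𝓝[>] ρ, R < 1 := mem_nhdsWithin_of_mem_nhds (Iio_mem_nhds hρ1)
    have evl : ∀ l : ℂ, ‖l‖ < ρ → ∀ᶠ R in 𝓝[>] ρ, ‖l‖ * R < ρ ^ 2 := by
      intro l hl
      refine mem_nhdsWithin_of_mem_nhds ?_
      have hcont : ContinuousAt (fun R : ℝ => ‖l‖ * R) ρ := by fun_prop
      refine hcont.eventually_lt_const ?_
      calc ‖l‖ * ρ < ρ * ρ := mul_lt_mul_of_pos_right hl hρ0
        _ = ρ ^ 2 := by ring
    have ev0 : ∀ᶠ R in 𝓝[>] ρ, ρ < R := self_mem_nhdsWithin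
    obtain ⟨R, a, b, c', d, e⟩ := (ev0.and (ev1.and ((evl l1 hl1).and ((evl l2 hl2).and
      (evl l3 hl3))))).exists
    exact ⟨R, a, b, c', d, e⟩
  have hfac : ∀ l : ℂ, ‖l‖ * R < ρ ^ 2 → ∀ x ∈ ball (0 : ℂ) R,
      1 - (starRingEnd ℂ) l * x / (ρ : ℂ) ^ 2 ≠ 0 := by
    intro l hl x hx h0
    have h1' : (starRingEnd ℂ) l * x / (ρ : ℂ) ^ 2 = 1 := (sub_eq_zero.1 h0).symm
    have h2' := congrArg norm h1'
    rw [norm_div, norm_mul, Complex.norm_conj, norm_pow, Complex.norm_real, norm_one,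
      Real.norm_eq_abs, abs_of_pos hρ0, div_eq_one_iff_eq (by positivity)] at h2'
    have hx' : ‖x‖ < R := by simpa using hx
    have : ‖l‖ * ‖x‖ ≤ ‖l‖ * R := mul_le_mul_of_nonneg_left hx'.le (norm_nonneg _)
    linarith
  set D : ℂ → ℂ := fun x => (1 - (starRingEnd ℂ) l1 * x / (ρ : ℂ) ^ 2) *
    (1 - (starRingEnd ℂ) l2 * x / (ρ : ℂ) ^ 2) * (1 - (starRingEnd ℂ) l3 * x / (ρ : ℂ) ^ 2) with hD
  have hD0 : ∀ x ∈ ball (0 : ℂ) R, D x ≠ 0 := fun x hx =>
    mul_ne_zero (mul_ne_zero (hfac l1 hRl1 x hx) (hfac l2 hRl2 x hx)) (hfac l3 hRl3 x hx)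
  have hDd : Differentiable ℂ D := by
    simp only [hD]
    fun_prop
  set k : ℂ → ℂ := fun x => x * h x / D x with hk
  have hkd : DifferentiableOn ℂ k (ball 0 R) := by
    refine DifferentiableOn.div (DifferentiableOn.mul differentiableOn_id
      (hhd.mono (ball_subset_ball hR1.le))) hDd.differentiableOn hD0
  refine no_zero_of_avoid hρ0 hkd hRρ (by simp [hk]) ?_
  intro x hx t ht hkx
  have hx0 : x ≠ 0 := by
    intro h0; rw [h0, norm_zero] at hx; linarith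
  have hxR : x ∈ ball (0 : ℂ) R := by simpa [hx] using hRρ
  have hx1 : x ∈ ball (0 : ℂ) 1 := by simpa [hx] using hρ1
  obtain ⟨z, w, hz, hw, hzw⟩ := hG x hx1
  have hcC : (c : ℂ) ≠ 0 := by exact_mod_cast hc0.ne'
  have hcx0 : (c : ℂ) * x ≠ 0 := mul_ne_zero hcC hx0
  have hcxn : ‖(c : ℂ) * x‖ = c * ρ := by
    rw [norm_mul, hx, Complex.norm_real, Real.norm_eq_abs, abs_of_pos hc0]
  -- factorisation of `g`
  have hgx : g x = ((c : ℂ) * x) ^ 2 * ((1 - z / (c * x)) * (1 - w / (c * x))) := by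
    simp only [hg, hzw]
    field_simp
    ring
  have hre : ∀ y : ℂ, ‖y‖ ≤ 1 → 0 < (1 - y / (c * x)).re := by
    intro y hy
    have h1' : ‖y / ((c : ℂ) * x)‖ < 1 := by
      rw [norm_div, hcxn, div_lt_one (by linarith)]
      linarith
    have := Complex.re_le_norm (y / ((c : ℂ) * x))
    rw [Complex.sub_re, Complex.one_re]
    linarith
  -- on the circle the quotient `k` is a positive multiple of the product
  have hconj : ∀ l : ℂ, 1 - (starRingEnd ℂ) l * x / (ρ : ℂ) ^ 2 =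
      (starRingEnd ℂ) (1 - l / x) := by
    intro l
    have hxx : x * (starRingEnd ℂ) x = (ρ : ℂ) ^ 2 := by
      rw [Complex.mul_conj, Complex.normSq_eq_norm_sq, hx]; push_cast; ring
    have hcx : (starRingEnd ℂ) x ≠ 0 := by simpa using hx0
    rw [map_sub, map_one, map_div₀, ← hxx]
    field_simp
  have hDx : D x = (starRingEnd ℂ) ((1 - l1 / x) * (1 - l2 / x) * (1 - l3 / x)) := by
    simp only [hD]
    rw [hconj, hconj, hconj, map_mul, map_mul]
  set W : ℂ := (1 - l1 / x) * (1 - l2 / x) * (1 - l3 / x) with hW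
  have hW0 : W ≠ 0 := by
    intro h0
    apply hD0 x hxR
    rw [hDx, h0, map_zero]
  have hxh : x * h x * W = (c : ℂ) ^ 2 * ((1 - z / (c * x)) * (1 - w / (c * x))) := by
    have e := hgh x
    rw [hgx] at e
    have e' : ((c : ℂ) * x) ^ 2 * ((1 - z / (c * x)) * (1 - w / (c * x))) =
        x ^ 2 * (x * h x * W) := by
      rw [e, hW]
      field_simp
    have hx2 : x ^ 2 ≠ 0 := pow_ne_zero 2 hx0
    have : x ^ 2 * ((c : ℂ) ^ 2 * ((1 - z / (c * x)) * (1 - w / (c * x)))) =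
        x ^ 2 * (x * h x * W) := by
      rw [← e']; ring
    exact (mul_left_cancel₀ hx2 this).symm
  have hns : ((Complex.normSq W : ℝ) : ℂ) = D x * W := by
    rw [hDx, mul_comm, Complex.mul_conj]
  have hns0 : 0 < Complex.normSq W := Complex.normSq_pos.2 hW0
  have hprod : (1 - z / (c * x)) * (1 - w / (c * x)) =
      -((t * Complex.normSq W / c ^ 2 : ℝ) : ℂ) := by
    have hkx' : x * h x = -(t : ℂ) * D x := by
      have := hkx
      simp only [hk] at this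
      rwa [div_eq_iff (hD0 x hxR)] at this
    rw [hkx'] at hxh
    have hc2 : (c : ℂ) ^ 2 ≠ 0 := pow_ne_zero 2 hcC
    apply mul_left_cancel₀ hc2
    rw [← hxh]
    push_cast
    rw [hns]
    field_simp
  exact mul_ne_neg (hre z hz) (hre w hw) _ (by positivity) hprod

/-! ### The test functions -/

/-- For small `ε > 0` and `c > 1` close to `1`, the explicit interpolants are bounded by one. -/
lemma exists_params {n : ℕ} (lam : Fin n → ℂ) (hlam : ∀ j, ‖lam j‖ < 1) :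
    ∃ ε c : ℝ, 1 < c ∧ (∀ j, c * ‖lam j‖ ≤ 1) ∧ ∀ x y : ℂ, ‖x‖ ≤ 1 → ‖y‖ ≤ 1 →
      ‖(c : ℂ) * x * (1 - (ε : ℂ) * ((∏ j, (x - lam j)) * ∏ j, (y - (starRingEnd ℂ) (lam j))))‖ <
        ‖2 - (c : ℂ) * x * y‖ := by
  set Q : ℂ × ℂ → ℂ := fun p => (∏ j, (p.1 - lam j)) * ∏ j, (p.2 - (starRingEnd ℂ) (lam j)) with hQ
  have hQc : Continuous Q := by
    simp only [hQ]
    fun_prop
  set K : Set (ℂ × ℂ) := closedBall 0 1 ×ˢ closedBall 0 1 with hK
  have hKc : IsCompact K := (isCompact_closedBall _ _).prod (isCompact_closedBall _ _)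
  have hlow : ∀ a b : ℂ, ‖a‖ ≤ 1 → ‖b‖ ≤ 1 → 1 ≤ ‖2 - a * b‖ := by
    intro a b ha hb
    have h1 : ‖a * b‖ ≤ 1 := by
      rw [norm_mul]; exact mul_le_one₀ ha (norm_nonneg _) hb
    have h2 := norm_sub_norm_le (2 : ℂ) (a * b)
    have h3 : ‖(2 : ℂ)‖ = 2 := by simp
    linarith
  -- first step: choose `ε`
  have step1 : ∀ᶠ ε : ℝ in 𝓝 0, ∀ p ∈ K, p ∈ K → 0 < ε →
      ‖p.1 * (1 - (ε : ℂ) * Q p)‖ < ‖2 - p.1 * p.2‖ := by
    refine hKc.eventually_forall_of_forall_eventually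
      (P := fun (ε : ℝ) (p : ℂ × ℂ) => p ∈ K → 0 < ε →
        ‖p.1 * (1 - (ε : ℂ) * Q p)‖ < ‖2 - p.1 * p.2‖) ?_
    rintro ⟨x, y⟩ ⟨hx, hy⟩
    have hx' : ‖x‖ ≤ 1 := by simpa using hx
    have hy' : ‖y‖ ≤ 1 := by simpa using hy
    by_cases hlt : ‖x‖ < ‖2 - x * y‖
    · -- strict inequality persists
      have c1 : ContinuousAt (fun q : ℝ × (ℂ × ℂ) => ‖q.2.1 * (1 - (q.1 : ℂ) * Q q.2)‖)
          (0, (x, y)) := by fun_prop
      have c2 : ContinuousAt (fun q : ℝ × (ℂ × ℂ) => ‖2 - q.2.1 * q.2.2‖) (0, (x, y)) := by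
        fun_prop
      have : ∀ᶠ q in 𝓝 ((0 : ℝ), (x, y)), ‖q.2.1 * (1 - (q.1 : ℂ) * Q q.2)‖ <
          ‖2 - q.2.1 * q.2.2‖ := by
        refine c1.eventually_lt c2 ?_
        simpa using hlt
      filter_upwards [this] with q hq _ _ using hq
    · -- here `y = conj x` lies on the circle
      have h1 : ‖x‖ = 1 ∧ ‖2 - x * y‖ = 1 := by
        have := hlow x y hx' hy'
        constructor <;> linarith
      have hxy1 : ‖x * y‖ ≤ 1 := by
        rw [norm_mul]; exact mul_le_one₀ hx' (norm_nonneg _) hy'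
      have hxy : x * y = 1 := by
        have hre1 : (2 - x * y).re ≤ 1 := (Complex.re_le_norm _).trans h1.2.le
        have hre2 : 1 ≤ (x * y).re := by
          rw [Complex.sub_re] at hre1
          have : (2 : ℂ).re = 2 := by simp
          linarith
        have hre3 : (x * y).re = 1 := le_antisymm ((Complex.re_le_norm _).trans hxy1) hre2
        have him : (x * y).im = 0 := by
          have hn : (x * y).re * (x * y).re + (x * y).im * (x * y).im ≤ 1 := by
            have h5 := Complex.normSq_eq_norm_sq (x * y)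
            rw [Complex.normSq_apply] at h5
            rw [h5]
            exact pow_le_one₀ (norm_nonneg _) hxy1
          rw [hre3] at hn
          have : (x * y).im * (x * y).im ≤ 0 := by linarith
          exact mul_self_eq_zero.1 (le_antisymm this (mul_self_nonneg _))
        exact Complex.ext hre3 him
      have hxc : x * (starRingEnd ℂ) x = 1 := by
        rw [Complex.mul_conj, Complex.normSq_eq_norm_sq, h1.1]; simp
      have hx0 : x ≠ 0 := by
        intro h; rw [h, norm_zero] at h1; exact zero_ne_one h1.1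
      have hyc : y = (starRingEnd ℂ) x := mul_left_cancel₀ hx0 (hxy.trans hxc.symm)
      have hQxy : Q (x, y) = ((Complex.normSq (∏ j, (x - lam j)) : ℝ) : ℂ) := by
        simp only [hQ]
        rw [← Complex.mul_conj, map_prod, hyc]
        simp only [map_sub]
      have hne : ∏ j, (x - lam j) ≠ 0 := by
        refine Finset.prod_ne_zero_iff.2 fun j _ => sub_ne_zero.2 fun h => ?_
        have := hlam j
        rw [← h, h1.1] at this
        exact lt_irrefl _ this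
      have hQpos : 0 < (Q (x, y)).re := by
        rw [hQxy, Complex.ofReal_re]
        exact Complex.normSq_pos.2 hne
      set w0 : ℝ := (Q (x, y)).re / 2 with hw0
      have hw0pos : 0 < w0 := by positivity
      set M : ℝ := ‖Q (x, y)‖ + 1 with hM
      have hMpos : 0 < M := by positivity
      have e1 : ∀ᶠ q in 𝓝 ((0 : ℝ), (x, y)), w0 < (Q q.2).re := by
        have hc : ContinuousAt (fun q : ℝ × (ℂ × ℂ) => (Q q.2).re) (0, (x, y)) := by fun_prop
        exact hc.eventually_const_lt (by simp only [hw0]; linarith)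
      have e2 : ∀ᶠ q in 𝓝 ((0 : ℝ), (x, y)), ‖Q q.2‖ < M := by
        have hc : ContinuousAt (fun q : ℝ × (ℂ × ℂ) => ‖Q q.2‖) (0, (x, y)) := by fun_prop
        exact hc.eventually_lt_const (by simp only [hM]; linarith)
      have e3 : ∀ᶠ q in 𝓝 ((0 : ℝ), (x, y)), q.1 * M ^ 2 < 2 * w0 := by
        have hc : ContinuousAt (fun q : ℝ × (ℂ × ℂ) => q.1 * M ^ 2) (0, (x, y)) := by fun_prop
        exact hc.eventually_lt_const (by simpa using hw0pos)
      filter_upwards [e1, e2, e3] with q h1q h2q h3q hqK hq0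
      have hq1 : ‖q.2.1‖ ≤ 1 := by simpa using hqK.1
      have hq2 : ‖q.2.2‖ ≤ 1 := by simpa using hqK.2
      have hlt1 : ‖1 - (q.1 : ℂ) * Q q.2‖ < 1 := by
        have hsq : ‖1 - (q.1 : ℂ) * Q q.2‖ ^ 2 = 1 - 2 * q.1 * (Q q.2).re + q.1 ^ 2 * ‖Q q.2‖ ^ 2 := by
          rw [← Complex.normSq_eq_norm_sq, ← Complex.normSq_eq_norm_sq, Complex.normSq_apply,
            Complex.normSq_apply]
          simp
          ring
        have hlt2 : ‖1 - (q.1 : ℂ) * Q q.2‖ ^ 2 < 1 := by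
          rw [hsq]
          have hn : ‖Q q.2‖ ^ 2 ≤ M ^ 2 := pow_le_pow_left₀ (norm_nonneg _) h2q.le 2
          have : q.1 ^ 2 * ‖Q q.2‖ ^ 2 ≤ q.1 * (q.1 * M ^ 2) := by
            calc q.1 ^ 2 * ‖Q q.2‖ ^ 2 ≤ q.1 ^ 2 * M ^ 2 :=
                  mul_le_mul_of_nonneg_left hn (by positivity)
              _ = q.1 * (q.1 * M ^ 2) := by ring
          have h4 : q.1 * (q.1 * M ^ 2) < q.1 * (2 * w0) := mul_lt_mul_of_pos_left h3q hq0
          have h5 : q.1 * (2 * w0) < q.1 * (2 * (Q q.2).re) := by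
            refine mul_lt_mul_of_pos_left ?_ hq0
            linarith
          linarith
        exact (sq_lt_one_iff₀ (norm_nonneg _)).1 hlt2
      calc ‖q.2.1 * (1 - (q.1 : ℂ) * Q q.2)‖ = ‖q.2.1‖ * ‖1 - (q.1 : ℂ) * Q q.2‖ := norm_mul _ _
        _ ≤ 1 * ‖1 - (q.1 : ℂ) * Q q.2‖ := mul_le_mul_of_nonneg_right hq1 (norm_nonneg _)
        _ < 1 := by rw [one_mul]; exact hlt1
        _ ≤ ‖2 - q.2.1 * q.2.2‖ := hlow _ _ hq1 hq2
  obtain ⟨ε, hε, hε0⟩ : ∃ ε : ℝ, (∀ p ∈ K, p ∈ K → 0 < ε →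
      ‖p.1 * (1 - (ε : ℂ) * Q p)‖ < ‖2 - p.1 * p.2‖) ∧ 0 < ε := by
    have h1 : ∀ᶠ ε : ℝ in 𝓝[>] 0, ∀ p ∈ K, p ∈ K → 0 < ε →
      ‖p.1 * (1 - (ε : ℂ) * Q p)‖ < ‖2 - p.1 * p.2‖ := step1.filter_mono nhdsWithin_le_nhds
    have h2 : ∀ᶠ ε : ℝ in 𝓝[>] 0, 0 < ε := self_mem_nhdsWithin
    exact (h1.and h2).exists
  -- second step: choose `c`
  have step2 : ∀ᶠ c : ℝ in 𝓝 1, ∀ p ∈ K,
      ‖(c : ℂ) * p.1 * (1 - (ε : ℂ) * Q p)‖ < ‖2 - (c : ℂ) * p.1 * p.2‖ := by
    refine hKc.eventually_forall_of_forall_eventually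
      (P := fun (c : ℝ) (p : ℂ × ℂ) =>
        ‖(c : ℂ) * p.1 * (1 - (ε : ℂ) * Q p)‖ < ‖2 - (c : ℂ) * p.1 * p.2‖) ?_
    rintro ⟨x, y⟩ hp
    have c1 : ContinuousAt (fun q : ℝ × (ℂ × ℂ) => ‖(q.1 : ℂ) * q.2.1 * (1 - (ε : ℂ) * Q q.2)‖)
        (1, (x, y)) := by fun_prop
    have c2 : ContinuousAt (fun q : ℝ × (ℂ × ℂ) => ‖2 - (q.1 : ℂ) * q.2.1 * q.2.2‖)
        (1, (x, y)) := by fun_prop
    refine c1.eventually_lt c2 ?_
    simpa using hε (x, y) hp hp hε0
  have step3 : ∀ᶠ c : ℝ in 𝓝 1, ∀ j, c * ‖lam j‖ ≤ 1 := by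
    rw [eventually_all]
    intro j
    have hc : ContinuousAt (fun c : ℝ => c * ‖lam j‖) 1 := by fun_prop
    exact (hc.eventually_lt_const (by simpa using hlam j)).mono fun _ h => h.le
  have h4 : ∀ᶠ c : ℝ in 𝓝[>] 1, (∀ p ∈ K,
      ‖(c : ℂ) * p.1 * (1 - (ε : ℂ) * Q p)‖ < ‖2 - (c : ℂ) * p.1 * p.2‖) ∧
      ∀ j, c * ‖lam j‖ ≤ 1 := (step2.and step3).filter_mono nhdsWithin_le_nhds
  have h5 : ∀ᶠ c : ℝ in 𝓝[>] 1, 1 < c := self_mem_nhdsWithin
  obtain ⟨c, ⟨hc1, hc2⟩, hc3⟩ := (h4.and h5).exists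
  refine ⟨ε, c, hc3, hc2, fun x y hx hy => ?_⟩
  exact hc1 (x, y) ⟨by simpa using hx, by simpa using hy⟩

lemma one_sub_conj_mul_ne {a x : ℂ} (ha : ‖a‖ < 1) (hx : ‖x‖ < 1) :
    1 - (starRingEnd ℂ) a * x ≠ 0 := by
  intro h
  have h1 : (starRingEnd ℂ) a * x = 1 := (sub_eq_zero.1 h).symm
  have h2 := congrArg norm h1
  rw [norm_mul, Complex.norm_conj, norm_one] at h2
  have : ‖a‖ * ‖x‖ < 1 := mul_lt_one_of_nonneg_of_lt_one_left (norm_nonneg _) ha hx.le
  linarith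

lemma norm_factor_le {a x : ℂ} (ha : ‖a‖ < 1) (hx : ‖x‖ < 1) :
    ‖(x - a) / (1 - (starRingEnd ℂ) a * x)‖ ≤ 1 := by
  rw [norm_div]
  refine div_le_one_of_le₀ ?_ (norm_nonneg _)
  refine abs_le_of_sq_le_sq' ?_ (norm_nonneg _) |>.2
  rw [← Complex.normSq_eq_norm_sq, ← Complex.normSq_eq_norm_sq]
  have hid : Complex.normSq (1 - (starRingEnd ℂ) a * x) - Complex.normSq (x - a) =
      (1 - Complex.normSq a) * (1 - Complex.normSq x) := by
    simp only [Complex.normSq_apply, Complex.sub_re, Complex.sub_im, Complex.one_re,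
      Complex.one_im, Complex.mul_re, Complex.mul_im, Complex.conj_re, Complex.conj_im]
    ring
  have h1 : 0 ≤ 1 - Complex.normSq a := by
    rw [Complex.normSq_eq_norm_sq]
    have : ‖a‖ ^ 2 ≤ 1 := pow_le_one₀ (norm_nonneg _) ha.le
    linarith
  have h2 : 0 ≤ 1 - Complex.normSq x := by
    rw [Complex.normSq_eq_norm_sq]
    have : ‖x‖ ^ 2 ≤ 1 := pow_le_one₀ (norm_nonneg _) hx.le
    linarith
  have := mul_nonneg h1 h2
  linarith

lemma blaschke_schur {d : ℕ} {υ : ℂ → ℂ} (h : IsBlaschke d υ) :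
    DifferentiableOn ℂ υ (ball 0 1) ∧ ∀ x ∈ ball (0 : ℂ) 1, ‖υ x‖ ≤ 1 := by
  obtain ⟨c, a, hc, ha, hυ⟩ := h
  constructor
  · refine DifferentiableOn.congr (f := fun x => c * ∏ k, (x - a k) /
      (1 - (starRingEnd ℂ) (a k) * x)) ?_ hυ
    refine DifferentiableOn.const_mul ?_ c
    refine DifferentiableOn.fun_finsetProd fun k _ => ?_
    refine DifferentiableOn.div (differentiableOn_id.sub_const _) (by fun_prop) fun x hx => ?_
    exact one_sub_conj_mul_ne (ha k) (by simpa using hx)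
  · intro x hx
    rw [hυ x hx, norm_mul, hc, one_mul, norm_prod]
    refine Finset.prod_le_one (fun _ _ => norm_nonneg _) fun k _ => ?_
    exact norm_factor_le (ha k) (by simpa using hx)

/-- For every `n ≥ 3` and every choice of `n` distinct nodes in the disc there are data in `Γ`
such that the Nevanlinna-Pick test data are solvable for every analytic `υ : 𝔻 → Δ`, in
particular all conditions `C_ν` hold, while the `Γ`-interpolation data are not solvable. -/
theorem main_result (n : ℕ) (hn : 3 ≤ n) (lam : Fin n → ℂ) (hinj : Function.Injective lam)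
    (hlam : ∀ j, lam j ∈ ball (0 : ℂ) 1) :
    ∃ z : Fin n → ℂ × ℂ, (∀ j, z j ∈ Gam) ∧
      (∀ υ : ℂ → ℂ, DifferentiableOn ℂ υ (ball 0 1) → (∀ x ∈ ball (0 : ℂ) 1, ‖υ x‖ ≤ 1) →
        NPSolvable lam (testData lam z υ)) ∧
      (∀ ν : ℕ, CondC ν lam z) ∧ ¬ GammaSolvable lam z := by
  have hl : ∀ j, ‖lam j‖ < 1 := fun j => by simpa using hlam j
  obtain ⟨ε, c, hc1, hcl, hineq⟩ := exists_params lam hl
  set z : Fin n → ℂ × ℂ := fun j => ((c : ℂ) * lam j, 0) with hz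
  have htest : ∀ υ : ℂ → ℂ, DifferentiableOn ℂ υ (ball 0 1) →
      (∀ x ∈ ball (0 : ℂ) 1, ‖υ x‖ ≤ 1) → NPSolvable lam (testData lam z υ) := by
    intro υ hυ hυ1
    have hne : ∀ x ∈ ball (0 : ℂ) 1, 2 - (c : ℂ) * x * υ x ≠ 0 := by
      intro x hx
      have := hineq x (υ x) (by simpa using (mem_ball_zero_iff.1 hx).le) (hυ1 x hx)
      exact norm_pos_iff.1 (lt_of_le_of_lt (norm_nonneg _) this)
    refine ⟨fun x => -((c : ℂ) * x * (1 - (ε : ℂ) * ((∏ j, (x - lam j)) *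
      ∏ j, (υ x - (starRingEnd ℂ) (lam j))))) / (2 - (c : ℂ) * x * υ x), ?_, ?_, ?_⟩
    · refine DifferentiableOn.div ?_ ?_ hne
      · have hp : DifferentiableOn ℂ (fun x => ∏ j, (υ x - (starRingEnd ℂ) (lam j)))
            (ball 0 1) := by
          refine DifferentiableOn.fun_finsetProd fun j _ => ?_
          exact hυ.sub_const _
        have hq : DifferentiableOn ℂ (fun x => ∏ j, (x - lam j)) (ball 0 1) := by
          refine DifferentiableOn.fun_finsetProd fun j _ => ?_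
          exact differentiableOn_id.sub_const _
        fun_prop
      · fun_prop
    · intro x hx
      have := hineq x (υ x) (by simpa using (mem_ball_zero_iff.1 hx).le) (hυ1 x hx)
      rw [norm_div, norm_neg]
      refine div_le_one_of_le₀ this.le (norm_nonneg _)
    · intro j
      have h0 : ∏ i, (lam j - lam i) = 0 := Finset.prod_eq_zero (Finset.mem_univ j) (sub_self _)
      simp only [testData, hz, h0]
      ring_nf
  refine ⟨z, ?_, htest, ?_, ?_⟩
  · intro j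
    refine ⟨(c : ℂ) * lam j, 0, ?_, by simp, by simp [hz]⟩
    rw [norm_mul, Complex.norm_real, Real.norm_eq_abs, abs_of_pos (by linarith)]
    exact hcl j
  · intro ν υ d _ hB
    exact htest υ (blaschke_schur hB).1 (blaschke_schur hB).2
  · rintro ⟨f, hf, hG, hfz⟩
    have i0 : (0 : ℕ) < n := by omega
    have i1 : (1 : ℕ) < n := by omega
    have i2 : (2 : ℕ) < n := by omega
    refine no_three hf hG hc1 (hl ⟨0, i0⟩) (hl ⟨1, i1⟩) (hl ⟨2, i2⟩) ?_ ?_ ?_
      (hfz ⟨0, i0⟩) (hfz ⟨1, i1⟩) (hfz ⟨2, i2⟩)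
    · exact fun h => by simpa using hinj h
    · exact fun h => by simpa using hinj h
    · exact fun h => by simpa using hinj h

end Pool.Agent.MP_2550b6_an
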